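import Pool.Agent.ZPT.Stmts

/-!
Squad ZPT (MP_6e1a06_nt), row AO: at most one large coordinate.
-/

set_option autoImplicit false

namespace Pool.Agent.ZPT.H18

open Polynomial

noncomputable section

/-- Row AO. -/
theorem ao : AOStmt := by
  intro K _ _ n G i j a b C hC hij hsup hcoef htop f hf
  by_contra hcon
  push Not at hcon
  obtain ⟨hi, hj⟩ := hcon
  have hi1 : 1 ≤ ‖f i‖ := hC.trans hi.le
  have hj1 : 1 ≤ ‖f j‖ := hC.trans hj.le
  set m0 : Fin n →₀ ℕ := Finsupp.single i a + Finsupp.single j b with hm0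
  set T : (Fin n →₀ ℕ) → K := fun m => MvPolynomial.coeff m G * ∏ l, f l ^ m l with hT
  -- the product over all indices
  have hprod : ∀ m : Fin n →₀ ℕ, (∀ l : Fin n, l ≠ i → l ≠ j → m l = 0) →
      ‖∏ l, f l ^ m l‖ = ‖f i‖ ^ m i * ‖f j‖ ^ m j := by
    intro m hm
    rw [← Finset.prod_subset (Finset.subset_univ {i, j}), Finset.prod_pair hij, norm_mul,
      norm_pow, norm_pow]
    intro l _ hl
    have h1 : l ≠ i := fun h => hl (by simp [h])
    have h2 : l ≠ j := fun h => hl (by simp [h])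
    rw [hm l h1 h2, pow_zero]
  have hm0i : m0 i = a := by
    rw [hm0, Finsupp.add_apply, Finsupp.single_eq_same, Finsupp.single_eq_of_ne hij, add_zero]
  have hm0j : m0 j = b := by
    rw [hm0, Finsupp.add_apply, Finsupp.single_eq_same, Finsupp.single_eq_of_ne hij.symm, zero_add]
  have hm0l : ∀ l : Fin n, l ≠ i → l ≠ j → m0 l = 0 := by
    intro l h1 h2
    rw [hm0, Finsupp.add_apply, Finsupp.single_eq_of_ne h1, Finsupp.single_eq_of_ne h2, add_zero]
  have hT0 : ‖T m0‖ = ‖f i‖ ^ a * ‖f j‖ ^ b := by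
    rw [hT]
    simp only
    rw [htop, one_mul, hprod m0 hm0l, hm0i, hm0j]
  have hpos : 0 < ‖T m0‖ := by
    rw [hT0]
    positivity
  have hlt : ∀ m ∈ G.support.erase m0, ‖T m‖ < ‖T m0‖ := by
    intro m hm
    obtain ⟨hne, hms⟩ := Finset.mem_erase.1 hm
    obtain ⟨ha, hb, hl⟩ := hsup m hms
    rw [hT0, hT]
    simp only
    rw [norm_mul, hprod m hl]
    have hc : ‖MvPolynomial.coeff m G‖ ≤ C := hcoef m
    have hai : ‖f i‖ ^ m i ≤ ‖f i‖ ^ a := pow_le_pow_right₀ hi1 ha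
    have hbj : ‖f j‖ ^ m j ≤ ‖f j‖ ^ b := pow_le_pow_right₀ hj1 hb
    have hlt2 : m i < a ∨ m j < b := by
      by_contra hno
      push Not at hno
      apply hne
      ext l
      by_cases h1 : l = i
      · rw [h1, hm0i]
        exact le_antisymm ha hno.1
      · by_cases h2 : l = j
        · rw [h2, hm0j]
          exact le_antisymm hb hno.2
        · rw [hl l h1 h2, hm0l l h1 h2]
    rcases hlt2 with h | h
    · have h1 : C * ‖f i‖ ^ m i < ‖f i‖ ^ a := by
        calc C * ‖f i‖ ^ m i < ‖f i‖ * ‖f i‖ ^ m i :=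
              mul_lt_mul_of_pos_right hi (by positivity)
          _ = ‖f i‖ ^ (m i + 1) := by rw [pow_succ, mul_comm]
          _ ≤ ‖f i‖ ^ a := pow_le_pow_right₀ hi1 h
      calc ‖MvPolynomial.coeff m G‖ * (‖f i‖ ^ m i * ‖f j‖ ^ m j)
          ≤ C * (‖f i‖ ^ m i * ‖f j‖ ^ m j) := mul_le_mul_of_nonneg_right hc (by positivity)
        _ = (C * ‖f i‖ ^ m i) * ‖f j‖ ^ m j := by ring
        _ < ‖f i‖ ^ a * ‖f j‖ ^ m j := mul_lt_mul_of_pos_right h1 (by positivity)
        _ ≤ ‖f i‖ ^ a * ‖f j‖ ^ b := mul_le_mul_of_nonneg_left hbj (by positivity)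
    · have h1 : C * ‖f j‖ ^ m j < ‖f j‖ ^ b := by
        calc C * ‖f j‖ ^ m j < ‖f j‖ * ‖f j‖ ^ m j :=
              mul_lt_mul_of_pos_right hj (by positivity)
          _ = ‖f j‖ ^ (m j + 1) := by rw [pow_succ, mul_comm]
          _ ≤ ‖f j‖ ^ b := pow_le_pow_right₀ hj1 h
      calc ‖MvPolynomial.coeff m G‖ * (‖f i‖ ^ m i * ‖f j‖ ^ m j)
          ≤ C * (‖f i‖ ^ m i * ‖f j‖ ^ m j) := mul_le_mul_of_nonneg_right hc (by positivity)
        _ = ‖f i‖ ^ m i * (C * ‖f j‖ ^ m j) := by ring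
        _ < ‖f i‖ ^ m i * ‖f j‖ ^ b := mul_lt_mul_of_pos_left h1 (by positivity)
        _ ≤ ‖f i‖ ^ a * ‖f j‖ ^ b := mul_le_mul_of_nonneg_right hai (by positivity)
  have hmem : m0 ∈ G.support := by
    rw [MvPolynomial.mem_support_iff, htop]
    exact one_ne_zero
  rw [MvPolynomial.eval_eq', ← Finset.add_sum_erase _ _ hmem] at hf
  have hsum : T m0 = -∑ m ∈ G.support.erase m0, T m := eq_neg_of_add_eq_zero_left hf
  have hnorm : ‖T m0‖ = ‖∑ m ∈ G.support.erase m0, T m‖ := by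
    rw [hsum, norm_neg]
  rcases (G.support.erase m0).eq_empty_or_nonempty with h | h
  · rw [h, Finset.sum_empty, norm_zero] at hnorm
    exact absurd hnorm hpos.ne'
  · obtain ⟨m, hm, hle⟩ := IsUltrametricDist.exists_norm_finsetSum_le_of_nonempty h T
    exact absurd (hnorm.le.trans hle) (not_le.2 (hlt m hm))

end

end Pool.Agent.ZPT.H18
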