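import Pool.Agent.ZPT.Stmts

/-!
Squad ZPT (MP_6e1a06_nt), row HC: complex parameters.
-/

set_option autoImplicit false

namespace Pool.Agent.ZPT.H18

open Polynomial

noncomputable section

theorem norm_ee (τ : ℂ) : ‖ee τ‖ = Real.exp (-(2 * Real.pi * τ.im)) := by
  rw [ee, Complex.norm_exp]
  congr 1
  simp

theorem norm_ee_lt (τ : ℂ) (h : 0 < τ.im) : ‖ee τ‖ < 1 := by
  rw [norm_ee, Real.exp_lt_one_iff]
  have := Real.pi_pos
  have : 0 < 2 * Real.pi * τ.im := by positivity
  linarith

/-- Row HC. -/
theorem hc : HCStmt := by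
  intro m hm τ hτ
  have hm0 : (m : ℂ) ≠ 0 := by
    have : m ≠ 0 := by omega
    exact_mod_cast this
  have hmr : (0 : ℝ) < m := by exact_mod_cast hm
  refine ⟨?_, ?_, ?_, ?_, ?_⟩
  · rw [ee, ee, ← Complex.exp_nat_mul]
    congr 1
    field_simp
  · rw [ee]
    exact norm_pos_iff.2 (Complex.exp_ne_zero _)
  · refine norm_ee_lt _ ?_
    have : (τ / (m : ℂ)).im = τ.im / m := by
      rw [Complex.div_natCast_im]
    rw [this]
    positivity
  · have h := Complex.isPrimitiveRoot_exp m (by omega)
    have e : ee (1 / m) = Complex.exp (2 * Real.pi * Complex.I / m) := by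
      rw [ee]
      congr 1
      ring
    rw [e]
    exact h
  · rintro ⟨a, b⟩ hx
    rw [idx, Finset.mem_filter, Finset.mem_product, Nat.mem_divisors] at hx
    obtain ⟨⟨⟨⟨d, hd⟩, _⟩, _⟩, hb⟩ := hx
    simp only at hb hd
    have ha : 0 < a := by
      rcases Nat.eq_zero_or_pos a with h | h
      · rw [h, zero_mul] at hd
        omega
      · exact h
    have hdp : 0 < d := by
      rcases Nat.eq_zero_or_pos d with h | h
      · rw [h, mul_zero] at hd
        omega
      · exact h
    have hma : m / a = d := by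
      rw [hd]
      exact Nat.mul_div_cancel_left d ha
    have har : (0 : ℝ) < a := by exact_mod_cast ha
    have hdr : (0 : ℝ) < d := by exact_mod_cast hdp
    have hac : (a : ℂ) ≠ 0 := by exact_mod_cast ha.ne'
    have hdc : (d : ℂ) ≠ 0 := by exact_mod_cast hdp.ne'
    constructor
    · rw [hpt]
      simp only
      rw [hma, Complex.div_natCast_im]
      have : ((a : ℂ) * τ + (b : ℂ)).im = a * τ.im := by simp
      rw [this]
      positivity
    · simp only
      rw [hpt]
      simp only
      rw [hma, ee, ee, ee, ← Complex.exp_nat_mul, ← Complex.exp_nat_mul, ← Complex.exp_add]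
      congr 1
      rw [hd]
      push_cast
      field_simp
      ring

end

end Pool.Agent.ZPT.H18
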