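import Pool.Agent.ZPT.Stmts

/-!
Squad ZPT (MP_6e1a06_nt), row MS: the Hecke power sums have rational expressions in `U` and `X`.
-/

set_option autoImplicit false

namespace Pool.Agent.ZPT.H18

open Polynomial

noncomputable section

/-- Values of `1`, `X` and powers of them. -/
theorem evX (K : Type) [NormedField K] [CharZero K] (q : K) :
    Summable (fun n : ℕ => ‖((PowerSeries.coeff n (PowerSeries.X : PowerSeries ℚ) : ℚ) : K)‖ *
      ‖q‖ ^ n) ∧
    ∑' n : ℕ, ((PowerSeries.coeff n (PowerSeries.X : PowerSeries ℚ) : ℚ) : K) * q ^ n = q := by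
  constructor
  · refine summable_of_ne_finset_zero (s := {1}) fun n hn => ?_
    have hn1 : n ≠ 1 := by simpa using hn
    rw [PowerSeries.coeff_X, if_neg hn1]
    simp
  · rw [tsum_eq_single 1]
    · simp
    · intro n hn
      rw [PowerSeries.coeff_X, if_neg hn]
      simp

theorem evOne (K : Type) [NormedField K] [CharZero K] (q : K) :
    Summable (fun n : ℕ => ‖((PowerSeries.coeff n (1 : PowerSeries ℚ) : ℚ) : K)‖ * ‖q‖ ^ n) ∧
    ∑' n : ℕ, ((PowerSeries.coeff n (1 : PowerSeries ℚ) : ℚ) : K) * q ^ n = 1 := by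
  constructor
  · refine summable_of_ne_finset_zero (s := {0}) fun n hn => ?_
    have hn1 : n ≠ 0 := by simpa using hn
    rw [PowerSeries.coeff_one, if_neg hn1]
    simp
  · rw [tsum_eq_single 0]
    · simp
    · intro n hn
      rw [PowerSeries.coeff_one, if_neg hn]
      simp

theorem evPow (ev : EVStmt) (K : Type) [NormedField K] [CompleteSpace K] [CharZero K]
    (A : PowerSeries ℚ) (q : K)
    (hA : Summable (fun n : ℕ => ‖((PowerSeries.coeff n A : ℚ) : K)‖ * ‖q‖ ^ n)) (i : ℕ) :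
    Summable (fun n : ℕ => ‖((PowerSeries.coeff n (A ^ i) : ℚ) : K)‖ * ‖q‖ ^ n) ∧
    ∑' n : ℕ, ((PowerSeries.coeff n (A ^ i) : ℚ) : K) * q ^ n =
      (∑' n : ℕ, ((PowerSeries.coeff n A : ℚ) : K) * q ^ n) ^ i := by
  induction i with
  | zero => simpa only [pow_zero] using evOne K q
  | succ i ih =>
    have h := ev K (A ^ i) A q ih.1 hA
    rw [pow_succ, pow_succ, ← ih.2]
    exact h

theorem evMon (ev : EVStmt) (K : Type) [NormedField K] [CompleteSpace K] [CharZero K]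
    (A : PowerSeries ℚ) (q : K)
    (hA : Summable (fun n : ℕ => ‖((PowerSeries.coeff n A : ℚ) : K)‖ * ‖q‖ ^ n)) (i j : ℕ) :
    Summable (fun n : ℕ => ‖((PowerSeries.coeff n (A ^ i * PowerSeries.X ^ j) : ℚ) : K)‖ *
      ‖q‖ ^ n) ∧
    ∑' n : ℕ, ((PowerSeries.coeff n (A ^ i * PowerSeries.X ^ j) : ℚ) : K) * q ^ n =
      (∑' n : ℕ, ((PowerSeries.coeff n A : ℚ) : K) * q ^ n) ^ i * q ^ j := by
  have h1 := evPow ev K A q hA i
  have h2 := evPow ev K PowerSeries.X q (evX K q).1 j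
  rw [(evX K q).2] at h2
  have h := ev K (A ^ i) (PowerSeries.X ^ j) q h1.1 h2.1
  rw [h1.2, h2.2] at h
  exact h

/-- Value of a combination of the series `U ^ i * X ^ (M - i)`. -/
theorem evComb (ev : EVStmt) (K : Type) [NormedField K] [CompleteSpace K] [CharZero K]
    (U : PowerSeries ℚ) (q : K) (hq : q ≠ 0)
    (hU : Summable (fun n : ℕ => ‖((PowerSeries.coeff n U : ℚ) : K)‖ * ‖q‖ ^ n))
    (M : ℕ) (c : ℕ → K) :
    Summable (fun N : ℕ => ‖∑ i ∈ Finset.range (M + 1),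
      c i * ((PowerSeries.coeff N (U ^ i * PowerSeries.X ^ (M - i)) : ℚ) : K)‖ * ‖q‖ ^ N) ∧
    ∑' N : ℕ, (∑ i ∈ Finset.range (M + 1),
      c i * ((PowerSeries.coeff N (U ^ i * PowerSeries.X ^ (M - i)) : ℚ) : K)) * q ^ N =
      q ^ M * ∑ i ∈ Finset.range (M + 1), c i * jv U q ^ i := by
  have h := fun i : ℕ => evMon ev K U q hU i (M - i)
  have hs : ∀ i ∈ Finset.range (M + 1), Summable (fun N : ℕ =>
      ‖c i‖ * (‖((PowerSeries.coeff N (U ^ i * PowerSeries.X ^ (M - i)) : ℚ) : K)‖ * ‖q‖ ^ N)) :=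
    fun i _ => (h i).1.mul_left _
  have hs2 : ∀ i ∈ Finset.range (M + 1), Summable (fun N : ℕ =>
      c i * (((PowerSeries.coeff N (U ^ i * PowerSeries.X ^ (M - i)) : ℚ) : K) * q ^ N)) := by
    intro i hi
    refine Summable.of_norm_bounded (hs i hi) fun N => ?_
    rw [norm_mul, norm_mul, norm_pow]
  constructor
  · refine Summable.of_nonneg_of_le (fun N => by positivity) (fun N => ?_) (summable_sum hs)
    calc ‖∑ i ∈ Finset.range (M + 1),
          c i * ((PowerSeries.coeff N (U ^ i * PowerSeries.X ^ (M - i)) : ℚ) : K)‖ * ‖q‖ ^ N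
        ≤ (∑ i ∈ Finset.range (M + 1),
          ‖c i * ((PowerSeries.coeff N (U ^ i * PowerSeries.X ^ (M - i)) : ℚ) : K)‖) * ‖q‖ ^ N :=
          mul_le_mul_of_nonneg_right (norm_sum_le _ _) (by positivity)
      _ = ∑ i ∈ Finset.range (M + 1),
          ‖c i‖ * (‖((PowerSeries.coeff N (U ^ i * PowerSeries.X ^ (M - i)) : ℚ) : K)‖ *
            ‖q‖ ^ N) := by
          rw [Finset.sum_mul]
          refine Finset.sum_congr rfl fun i _ => ?_
          rw [norm_mul, mul_assoc]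
  · have e1 : (fun N : ℕ => (∑ i ∈ Finset.range (M + 1),
        c i * ((PowerSeries.coeff N (U ^ i * PowerSeries.X ^ (M - i)) : ℚ) : K)) * q ^ N) =
        fun N : ℕ => ∑ i ∈ Finset.range (M + 1),
          c i * (((PowerSeries.coeff N (U ^ i * PowerSeries.X ^ (M - i)) : ℚ) : K) * q ^ N) := by
      funext N
      rw [Finset.sum_mul]
      exact Finset.sum_congr rfl fun i _ => mul_assoc _ _ _
    rw [e1, Summable.tsum_finsetSum hs2, Finset.mul_sum]
    refine Finset.sum_congr rfl fun i hi => ?_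
    have hi' : i ≤ M := by
      have := Finset.mem_range.1 hi
      omega
    rw [tsum_mul_left, (h i).2]
    have hM : q ^ M = q ^ i * q ^ (M - i) := by
      rw [← pow_add, Nat.add_sub_cancel' hi']
    have hqi : q ^ i ≠ 0 := pow_ne_zero _ hq
    rw [jv, hM, div_pow]
    field_simp

theorem sumC (U : PowerSeries ℚ) (hU : IsU U) : ∀ ρ : ℝ, 0 ≤ ρ → ρ < 1 →
    Summable fun n : ℕ => ‖((PowerSeries.coeff n U : ℚ) : ℂ)‖ * ρ ^ n := by
  intro ρ h0 h1
  have h := hU.sm ρ h0 h1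
  have e : (fun n : ℕ => ‖((PowerSeries.coeff n U : ℚ) : ℂ)‖ * ρ ^ n) =
      fun n : ℕ => |((PowerSeries.coeff n U : ℚ) : ℝ)| * ρ ^ n := by
    funext n
    rw [Complex.norm_ratCast]
  rw [e]
  exact h

/-- Row MS. -/
theorem ms (ev : EVStmt) (uq : UQStmt) (hs : HSStmt) (hc : HCStmt) (sq : SQStmt) (mc : MCStmt) :
    MSStmt := by
  intro U hU m k hm
  obtain ⟨R, hRd, hR⟩ := mc m hm k
  have hsum := sumC U hU
  set a : ℕ → ℂ := fun N => ((PowerSeries.coeff N (hser U m k) : ℚ) : ℂ) with ha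
  set b : ℕ → ℂ := fun N => ∑ i ∈ Finset.range (k * m + 1),
      R.coeff i * ((PowerSeries.coeff N (U ^ i * PowerSeries.X ^ (k * m - i)) : ℚ) : ℂ) with hb
  have ra : ∀ ρ : ℝ, 0 < ρ → ρ < 1 → Summable fun n : ℕ => ‖a n‖ * ρ ^ n := by
    intro ρ h0 h1
    obtain ⟨τ, hτ, hq⟩ := sq (ρ : ℂ) (by exact_mod_cast h0.ne') (by
      rw [Complex.norm_real, Real.norm_of_nonneg h0.le]; exact h1)
    obtain ⟨c1, c2, c3, c4, c5⟩ := hc m hm τ hτ
    have h := (hs U ℂ hsum m k hm (ee (τ / m)) (ee (1 / m)) c2 c3 c4).1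
    rw [c1, hq, Complex.norm_real, Real.norm_of_nonneg h0.le] at h
    exact h
  have rb : ∀ ρ : ℝ, 0 < ρ → ρ < 1 → Summable fun n : ℕ => ‖b n‖ * ρ ^ n := by
    intro ρ h0 h1
    have hn : ‖(ρ : ℂ)‖ = ρ := by rw [Complex.norm_real, Real.norm_of_nonneg h0.le]
    have h := (evComb ev ℂ U (ρ : ℂ) (by exact_mod_cast h0.ne')
      (by rw [hn]; exact hsum ρ h0.le h1) (k * m) (fun i => R.coeff i)).1
    rw [hn] at h
    exact h
  have up : ∀ f : ℕ → ℂ, (∀ ρ : ℝ, 0 < ρ → ρ < 1 → Summable fun n : ℕ => ‖f n‖ * ρ ^ n) →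
      ∀ ρ : ℝ, 0 ≤ ρ → ρ < 1 → Summable fun n : ℕ => ‖f n‖ * ρ ^ n := by
    intro f hf ρ h0 h1
    rcases h0.eq_or_lt with h | h
    · refine Summable.of_nonneg_of_le (fun n => by positivity) (fun n => ?_)
        (hf (1 / 2) (by norm_num) (by norm_num))
      refine mul_le_mul_of_nonneg_left (pow_le_pow_left₀ h0 ?_ n) (norm_nonneg _)
      rw [← h]
      norm_num
    · exact hf ρ h h1
  have hab : a = b := by
    refine uq a b (up a ra) (up b rb) fun q hq0 hq1 => ?_
    obtain ⟨τ, hτ, hq⟩ := sq q hq0 hq1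
    obtain ⟨c1, c2, c3, c4, c5⟩ := hc m hm τ hτ
    have h := (hs U ℂ hsum m k hm (ee (τ / m)) (ee (1 / m)) c2 c3 c4).2
    rw [c1, hq] at h
    have h2 : ∑ x ∈ idx m, jv U (ee (1 / m) ^ (x.1 * x.2) * ee (τ / m) ^ (x.1 ^ 2)) ^ k =
        R.eval (J τ) := by
      have := hR ⟨τ, hτ⟩
      refine Eq.trans ?_ this
      refine Finset.sum_congr rfl fun x hx => ?_
      rw [(c5 x hx).2, hU.jJ _ (c5 x hx).1]
    have h3 : J τ = jv U q := by
      rw [← hq, hU.jJ τ hτ]
    have h4 := (evComb ev ℂ U q hq0 (hsum ‖q‖ (norm_nonneg _) hq1) (k * m)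
      (fun i => R.coeff i)).2
    rw [h2, h3, Polynomial.eval_eq_sum_range' (Nat.lt_succ_of_le hRd)] at h
    exact h.trans h4.symm
  obtain ⟨lam, hlam⟩ := LinearMap.exists_leftInverse_of_injective (Algebra.linearMap ℚ ℂ)
    (LinearMap.ker_eq_bot.2 (algebraMap ℚ ℂ).injective)
  have hl : ∀ (y : ℂ) (c : ℚ), lam (y * (c : ℂ)) = lam y * c := by
    intro y c
    have : y * (c : ℂ) = c • y := by
      rw [Algebra.smul_def, mul_comm]
      rfl
    rw [this, map_smul, smul_eq_mul, mul_comm]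
  have hl1 : ∀ c : ℚ, lam (c : ℂ) = c := by
    intro c
    have := LinearMap.congr_fun hlam c
    exact this
  refine ⟨∑ i ∈ Finset.range (k * m + 1), Polynomial.monomial i (lam (R.coeff i)), ?_, ?_⟩
  · refine Polynomial.natDegree_sum_le_of_forall_le _ _ fun i hi => ?_
    refine (Polynomial.natDegree_monomial_le _).trans ?_
    have := Finset.mem_range.1 hi
    omega
  · have hcoef : ∀ i ∈ Finset.range (k * m + 1),
        (∑ j ∈ Finset.range (k * m + 1), Polynomial.monomial j (lam (R.coeff j))).coeff i =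
          lam (R.coeff i) := by
      intro i hi
      rw [Polynomial.finsetSum_coeff, Finset.sum_eq_single i]
      · rw [Polynomial.coeff_monomial, if_pos rfl]
      · intro j _ hj
        rw [Polynomial.coeff_monomial, if_neg hj]
      · intro h
        exact absurd hi h
    refine PowerSeries.ext fun N => ?_
    rw [map_sum]
    have hN : ((PowerSeries.coeff N (hser U m k) : ℚ) : ℂ) = ∑ i ∈ Finset.range (k * m + 1),
      R.coeff i * ((PowerSeries.coeff N (U ^ i * PowerSeries.X ^ (k * m - i)) : ℚ) : ℂ) :=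
      congrFun hab N
    have hN2 := congrArg lam hN
    rw [hl1, map_sum] at hN2
    rw [hN2]
    refine Finset.sum_congr rfl fun i hi => ?_
    rw [hl, hcoef i hi, mul_assoc (PowerSeries.C _), PowerSeries.coeff_C_mul]

end

end Pool.Agent.ZPT.H18
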