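import Pool.Agent.ZPT.Stmts
import Pool.Agent.Helper18_ZPT.MS

/-!
Squad ZPT (MP_6e1a06_nt), row MK: Hecke power sums are polynomials in `j` over any complete field.
-/

set_option autoImplicit false

namespace Pool.Agent.ZPT.H18

open Polynomial

noncomputable section

/-- Row MK. -/
theorem mk (ev : EVStmt) (hs : HSStmt) (msr : MSStmt) : MKStmt := by
  intro U hU m k hm
  obtain ⟨R, hRd, hR⟩ := msr U hU m k hm
  refine ⟨R, ?_⟩
  intro K _ _ _ hsum r z hr0 hr1 hz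
  have hr : r ≠ 0 := norm_pos_iff.1 hr0
  have hq0 : r ^ m ≠ 0 := pow_ne_zero _ hr
  have hq1 : ‖r ^ m‖ < 1 := by
    rw [norm_pow]
    exact pow_lt_one₀ (norm_nonneg _) hr1 (by omega)
  have h1 := (hs U K hsum m k hm r z hr0 hr1 hz).2
  have h2 := (evComb ev K U (r ^ m) hq0 (hsum ‖r ^ m‖ (norm_nonneg _) hq1) (k * m)
    (fun i => ((R.coeff i : ℚ) : K))).2
  have e : ∀ N : ℕ, ((PowerSeries.coeff N (hser U m k) : ℚ) : K) =
      ∑ i ∈ Finset.range (k * m + 1), ((R.coeff i : ℚ) : K) *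
        ((PowerSeries.coeff N (U ^ i * PowerSeries.X ^ (k * m - i)) : ℚ) : K) := by
    intro N
    rw [hR, map_sum, Rat.cast_sum]
    refine Finset.sum_congr rfl fun i _ => ?_
    rw [mul_assoc (PowerSeries.C _), PowerSeries.coeff_C_mul, Rat.cast_mul]
  have h3 : ∑' N : ℕ, ((PowerSeries.coeff N (hser U m k) : ℚ) : K) * (r ^ m) ^ N =
      ∑' N : ℕ, (∑ i ∈ Finset.range (k * m + 1), ((R.coeff i : ℚ) : K) *
        ((PowerSeries.coeff N (U ^ i * PowerSeries.X ^ (k * m - i)) : ℚ) : K)) * (r ^ m) ^ N := by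
    refine tsum_congr fun N => ?_
    rw [e N]
  rw [h3, h2] at h1
  have h4 := mul_left_cancel₀ (pow_ne_zero _ hq0) h1
  rw [← h4, Polynomial.eval₂_eq_sum_range' _ (Nat.lt_succ_of_le hRd)]
  rfl

end

end Pool.Agent.ZPT.H18
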